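import Pool.Agent.H382L.GapUnif

namespace Pool.Agent.Results.MP_21f43f_nt.GapTail

/-- multiplicity of `s` as a zero of the Riemann zeta function (order of vanishing at `s`) -/
noncomputable def zmult (s : ℂ) : ℕ := analyticOrderNatAt riemannZeta s

/-- the number of nontrivial zeros of `ζ` with ordinate in `(0, t]`, with multiplicity -/
noncomputable def NZ (t : ℝ) : ℕ :=
  ∑ᶠ s ∈ {s : ℂ | riemannZeta s = 0 ∧ 0 < s.re ∧ s.re < 1 ∧ 0 < s.im ∧ s.im ≤ t}, zmult s

/-- for `n ≥ 1`: `γ_n`, the `n`-th positive ordinate of a nontrivial zero of `ζ`, the ordinates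
being listed in nondecreasing order and repeated according to multiplicity -/
noncomputable def ord (n : ℕ) : ℝ := sInf {t : ℝ | n ≤ NZ t}

/-- the normalised ordinate `(1 / 2π) γ_n log γ_n` -/
noncomputable def nord (n : ℕ) : ℝ := 1 / (2 * Real.pi) * ord n * Real.log (ord n)

/-- the normalised gap `δ_n` between the `n`-th and the `(n+1)`-st zero -/
noncomputable def gap (n : ℕ) : ℝ := nord (n + 1) - nord n

/-- On the Riemann hypothesis the proportion of normalised gaps `δ_n`, `n ≤ N`, that are at least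
`x` is at most `exp (-c x log x)`, uniformly in `N ≥ 1` and `x ≥ x0`. -/
theorem result (RH : RiemannHypothesis) : ∃ c x0 : ℝ, 0 < c ∧ 1 < x0 ∧
    ∀ N : ℕ, 1 ≤ N → ∀ x : ℝ, x0 ≤ x →
      ({n : ℕ | 1 ≤ n ∧ n ≤ N ∧ x ≤ gap n}.ncard : ℝ) ≤ N * Real.exp (-c * x * Real.log x) := by
  have hRHs : SP.RHs := by
    intro s h1 h2 h0
    apply RH s h0
    · rintro ⟨k, hk⟩
      have := congrArg Complex.re hk
      simp at this
      have hk0 : (0 : ℝ) ≤ k := Nat.cast_nonneg k
      linarith
    · intro h; rw [h] at h2; simp at h2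
  obtain ⟨c, x0, hc, hx0, h⟩ := LG.gap_uniform hRHs
  refine ⟨c, x0, hc, hx0, fun N hN x hx => ?_⟩
  have h1 := h N hN x hx
  have h2 : ∀ n : ℕ, LG.dlt n = gap n := by
    intro n
    have e : ∀ m : ℕ, SG.ord m = ord m := fun m => rfl
    unfold LG.dlt gap nord
    rw [e, e]
    ring
  simp only [h2] at h1
  exact h1

end Pool.Agent.Results.MP_21f43f_nt.GapTail
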