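import Pool.Agent.H360R2.RG.Main

open Filter

namespace Pool.Agent.Results.MP_21f43f_nt.LargeRSums

/-- multiplicity of `s` as a zero of the Riemann zeta function (order of vanishing at `s`) -/
noncomputable def zmult (s : ℂ) : ℕ := analyticOrderNatAt riemannZeta s

/-- the number of nontrivial zeros of `ζ` with ordinate in `(0, t]`, with multiplicity -/
noncomputable def NZ (t : ℝ) : ℕ :=
  ∑ᶠ s ∈ {s : ℂ | riemannZeta s = 0 ∧ 0 < s.re ∧ s.re < 1 ∧ 0 < s.im ∧ s.im ≤ t}, zmult s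

/-- for `n ≥ 1`: the `n`-th positive ordinate `γ n` of a nontrivial zero of `ζ`, the ordinates being
listed in nondecreasing order and repeated according to multiplicity -/
noncomputable def γ (n : ℕ) : ℝ := sInf {t : ℝ | n ≤ NZ t}

/-- the normalised gaps `δ_n = (γ_{n+1} log γ_{n+1} - γ_n log γ_n) / 2π` -/
noncomputable def δ (n : ℕ) : ℝ :=
  (γ (n + 1) * Real.log (γ (n + 1)) - γ n * Real.log (γ n)) / (2 * Real.pi)

/-- On the Riemann hypothesis, for every `ε > 0` and all large `r`, the sum of `r` consecutive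
normalised gaps exceeds `r + (2 - ε) √r` for a positive proportion of the `n`. -/
theorem result (RH : RiemannHypothesis) (ε : ℝ) (hε : 0 < ε) :
    ∃ r0 : ℕ, ∀ r : ℕ, r0 ≤ r → ∃ p : ℝ, 0 < p ∧ ∀ᶠ N : ℕ in atTop,
      p ≤ (1 / N : ℝ) * ({n : ℕ | 1 ≤ n ∧ n ≤ N ∧
        r + (2 - ε) * Real.sqrt r < ∑ i ∈ Finset.range r, δ (n + i)}.ncard : ℝ) := by
  have hRHs : SP.RHs := by
    intro s h1 h2 h0
    apply RH s h0
    · rintro ⟨k, hk⟩
      have := congrArg Complex.re hk
      simp at this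
      have hk0 : (0 : ℝ) ≤ k := Nat.cast_nonneg k
      linarith
    · intro h; rw [h] at h2; simp at h2
  obtain ⟨k0, h0⟩ := RGap.ASYM_main hRHs ε hε
  refine ⟨k0, fun r hr => ?_⟩
  obtain ⟨p, hp, h⟩ := (h0 r hr).1.delta
  refine ⟨p, hp, ?_⟩
  filter_upwards [h, eventually_gt_atTop 0] with N hN hN0
  have hNpos : (0 : ℝ) < N := by exact_mod_cast hN0
  have hsum : ∀ n : ℕ, ∑ i ∈ Finset.range r, δ (n + i) =
      (γ (n + r) * Real.log (γ (n + r)) - γ n * Real.log (γ n)) / (2 * Real.pi) := by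
    intro n
    have h1 := Finset.sum_range_sub (fun i => γ (n + i) * Real.log (γ (n + i)) / (2 * Real.pi)) r
    have h2 : ∑ i ∈ Finset.range r, δ (n + i) = ∑ i ∈ Finset.range r,
        (γ (n + (i + 1)) * Real.log (γ (n + (i + 1))) / (2 * Real.pi) -
          γ (n + i) * Real.log (γ (n + i)) / (2 * Real.pi)) := by
      apply Finset.sum_congr rfl
      intro i _
      unfold δ
      rw [sub_div]
      rfl
    rw [h2, h1, add_zero, sub_div]
  simp only [hsum]
  change p ≤ (1 / N : ℝ) * ({n : ℕ | 1 ≤ n ∧ n ≤ N ∧ r + (2 - ε) * Real.sqrt r <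
        (SG.ord (n + r) * Real.log (SG.ord (n + r)) - SG.ord n * Real.log (SG.ord n)) /
          (2 * Real.pi)}.ncard : ℝ)
  rw [one_div, inv_mul_eq_div, le_div_iff₀ hNpos]
  exact hN

end Pool.Agent.Results.MP_21f43f_nt.LargeRSums
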