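import Pool.Agent.H345R2.A3.Num

open MeasureTheory

namespace Pool.Agent.Results.MP_21f43f_nt.SmallGapsAlmostAll

/-- multiplicity of `s` as a zero of the Riemann zeta function (order of vanishing at `s`) -/
noncomputable def zmult (s : ℂ) : ℕ := analyticOrderNatAt riemannZeta s

/-- the number of nontrivial zeros of `ζ` with ordinate in `(0, t]`, with multiplicity -/
noncomputable def NZ (t : ℝ) : ℕ :=
  ∑ᶠ s ∈ {s : ℂ | riemannZeta s = 0 ∧ 0 < s.re ∧ s.re < 1 ∧ 0 < s.im ∧ s.im ≤ t}, zmult s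

/-- for `n ≥ 1`: the `n`-th positive ordinate `γ n` of a nontrivial zero of `ζ`, the ordinates being
listed in nondecreasing order and repeated according to multiplicity -/
noncomputable def γ (n : ℕ) : ℝ := sInf {t : ℝ | n ≤ NZ t}

/-- the normalised gaps `δ_n = (γ_{n+1} log γ_{n+1} - γ_n log γ_n) / 2π` -/
noncomputable def δ (n : ℕ) : ℝ :=
  (γ (n + 1) * Real.log (γ (n + 1)) - γ n * Real.log (γ n)) / (2 * Real.pi)

/-- the function `G(β, λ) = β + 2β ∫_0^λ α (1 - βα + sin(2πβα)/(2π)) dα` -/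
noncomputable def G (β lam : ℝ) : ℝ :=
  β + 2 * β * ∫ α in (0 : ℝ)..lam,
    α * (1 - β * α + Real.sin (2 * Real.pi * (β * α)) / (2 * Real.pi))

/-- On the Riemann hypothesis: for `0 < η < 1` and `0 < β ≤ 1` with `G(β, (1+η)/2) > 1`, a positive
proportion of the normalised gaps `δ_n` belonging to the zeros in `(t, t + H]` is smaller than `β`,
for all `T^η ≤ H ≤ T/8` and all `t ∈ [T, 2T]` outside a set of measure at most `T^{1-κ}`; the value
`β = 0.83` is admissible for every `η > 0`; and `G` has an explicit lower bound. -/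
theorem result (RH : RiemannHypothesis) :
    (∀ η β : ℝ, 0 < η → η < 1 → 0 < β → β ≤ 1 → 1 < G β ((1 + η) / 2) →
      ∃ c κ : ℝ, 0 < c ∧ 0 < κ ∧ ∃ T₀ : ℝ, ∀ T : ℝ, T₀ ≤ T → ∀ H : ℝ, T ^ η ≤ H → H ≤ T / 8 →
        volume {t : ℝ | T ≤ t ∧ t ≤ 2 * T ∧
          ({n : ℕ | 1 ≤ n ∧ t < γ n ∧ γ n ≤ t + H ∧ δ n < β}.ncard : ℝ) <
            c * (H * Real.log T)} ≤ ENNReal.ofReal (T ^ (1 - κ))) ∧
    (∀ η : ℝ, 0 < η → η < 1 → 1 < G (83 / 100) ((1 + η) / 2)) ∧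
    (∀ β lam : ℝ, 0 ≤ β → 0 ≤ lam → β * (1 + lam ^ 2 - β ^ 2 * lam ^ 4) ≤ G β lam) := by
  have hG : ∀ β lam : ℝ, G β lam = H370.A3.gg β lam := fun β lam => rfl
  have hlow : ∀ β lam : ℝ, 0 ≤ β → 0 ≤ lam →
      β * (1 + lam ^ 2 - β ^ 2 * lam ^ 4) ≤ G β lam := fun β lam h1 h2 => by
    rw [hG]
    exact H370.A3.gg_lower h1 h2
  refine ⟨fun η β h1 h2 h3 h4 h5 => ?_, fun η h1 h2 => ?_, hlow⟩
  · rw [hG] at h5
    exact H370.A3.small_delta RH η β h1 h2 h3 h4 h5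
  · refine lt_of_lt_of_le ?_ (hlow (83 / 100) ((1 + η) / 2) (by norm_num) (by linarith))
    set x : ℝ := ((1 + η) / 2) ^ 2 with hx
    have hx1 : 1 / 4 < x := by
      rw [hx]; nlinarith
    have hx2 : x < 1 := by
      rw [hx]; nlinarith
    have hx4 : ((1 + η) / 2) ^ 4 = x ^ 2 := by rw [hx]; ring
    rw [hx4]
    nlinarith [mul_pos (sub_pos.2 hx1) (sub_pos.2 hx2)]

end Pool.Agent.Results.MP_21f43f_nt.SmallGapsAlmostAll
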